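import Pool.Agent.P8H58.DL.StmB

/-!
# Project DL: packages ISO and DIC
-/

set_option autoImplicit false

open scoped Classical

noncomputable section

namespace Pool.Agent.P8H52.DL

open Pool.Agent.Y63.NV Pool.Agent.N85.WM Pool.Agent.P8H58.DL
open Pool.Agent.Y63.AWC (IsIrreducibleCharacter pSubgroupSetoid ConjugateSubgroups)
open Pool.Agent.Q90.WR (IndS)
open Pool.Agent.Y63.NV.B48B (orbit_sum)
open Pool.Agent.N85.WM.Ww (cm mem_cm nE cm_symm_cm cm_cm_symm cls_sub)

variable {F : Type} [Field F] {p : ℕ}

/-- the number of weights and isomorphisms -/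
theorem nwb_cm (red : integralClosure ℤ ℂ →+* F) {H H' : Type} [Group H] [Group H'] (φ : H ≃* H')
    (Q : Subgroup H') (B : (H → F) → F) (B' : (H' → F) → F)
    (hB : ∀ f : H' → F, IsClassFun f → B' f = B (fun x => f (φ x))) :
    numWtBlock p red (cm φ Q) B = numWtBlock p red Q B' := by
  unfold numWtBlock
  have hcl : ∀ f : H → F, IsClassFun f → IsClassFun (fun y : H' => f (φ.symm y)) := by
    intro f hf g x
    show f (φ.symm (g * x * g⁻¹)) = f (φ.symm x)
    rw [map_mul, map_mul, map_inv]
    exact hf _ _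
  have hcl' : ∀ f : H' → F, IsClassFun f → IsClassFun (fun y : H => f (φ y)) := by
    intro f hf g x
    show f (φ (g * x * g⁻¹)) = f (φ x)
    rw [map_mul, map_mul, map_inv]
    exact hf _ _
  have hQ1 : ∀ x : ↥(Subgroup.normalizer ((cm φ Q : Subgroup H) : Set H)),
      nE φ Q x ∈ Q.subgroupOf (Subgroup.normalizer (Q : Set H')) ↔
        x ∈ (cm φ Q).subgroupOf (Subgroup.normalizer ((cm φ Q : Subgroup H) : Set H)) :=
    fun x => Iff.rfl
  have hQ2 : ∀ y : ↥(Subgroup.normalizer (Q : Set H')),
      (nE φ Q).symm y ∈ (cm φ Q).subgroupOf (Subgroup.normalizer ((cm φ Q : Subgroup H) : Set H)) ↔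
        y ∈ Q.subgroupOf (Subgroup.normalizer (Q : Set H')) := by
    intro y
    rw [← hQ1, MulEquiv.apply_symm_apply]
  refine Nat.card_congr
    { toFun := fun χ => ⟨fun y => χ.1 ((nE φ Q).symm y), ?_, ?_⟩
      invFun := fun χ => ⟨fun x => χ.1 (nE φ Q x), ?_, ?_⟩
      left_inv := ?_
      right_inv := ?_ }
  · exact Pool.Agent.Y624.NV.isWt_comp (nE φ Q).symm hQ2 χ.2.1
  · intro f hf
    rw [hB f hf, ← χ.2.2 _ (hcl' f hf)]
    have h1 := Pool.Agent.Y624.NV.centralValue_comp red (nE φ Q).symm χ.2.1.irr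
      (cls_sub (hcl' f hf) (Subgroup.normalizer ((cm φ Q : Subgroup H) : Set H)))
    rw [← h1]
    congr 1
    funext x
    show f x = f (φ (φ.symm x))
    rw [φ.apply_symm_apply]
  · exact Pool.Agent.Y624.NV.isWt_comp (nE φ Q) hQ1 χ.2.1
  · intro f hf
    have h1 := Pool.Agent.Y624.NV.centralValue_comp red (nE φ Q) χ.2.1.irr
      (cls_sub (hcl f hf) (Subgroup.normalizer (Q : Set H')))
    have h2 : (fun x : ↥(Subgroup.normalizer ((cm φ Q : Subgroup H) : Set H)) => f x) =
        fun x => f (φ.symm (nE φ Q x : H')) := by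
      funext x
      show f x = f (φ.symm (φ x))
      rw [φ.symm_apply_apply]
    rw [h2]
    refine h1.trans ?_
    rw [χ.2.2 _ (hcl f hf), hB _ (hcl f hf)]
    congr 1
    funext x
    rw [φ.symm_apply_apply]
  · intro χ
    apply Subtype.ext
    funext x
    show χ.1 ((nE φ Q).symm (nE φ Q x)) = χ.1 x
    rw [MulEquiv.symm_apply_apply]
  · intro χ
    apply Subtype.ext
    funext x
    show χ.1 (nE φ Q ((nE φ Q).symm x)) = χ.1 x
    rw [MulEquiv.apply_symm_apply]

/-- the number of weights is invariant under conjugation -/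
theorem nwb_conj (red : integralClosure ℤ ℂ →+* F) {G : Type} [Group G] (Q : Subgroup G)
    (B : (G → F) → F) (g : G) :
    numWtBlock p red (Q.map (MulAut.conj g).toMonoidHom) B = numWtBlock p red Q B := by
  have h1 : cm (MulAut.conj g) (Q.map (MulAut.conj g).toMonoidHom) = Q :=
    Subgroup.comap_map_eq_self_of_injective (MulAut.conj g).injective Q
  have h2 := nwb_cm (p := p) red (MulAut.conj g) (Q.map (MulAut.conj g).toMonoidHom) B B (by
    intro f hf
    congr 1
    funext x
    exact (hf g x).symm)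
  rw [h1] at h2
  exact h2.symm

/-- the number of the classes of weights as a sum over all `p`-subgroups -/
theorem wts_sum (red : integralClosure ℤ ℂ →+* F) {G : Type} [Group G] [Finite G]
    (B : (G → F) → F) : Nat.card G * numWts p red B =
      ∑ᶠ Q : {Q : Subgroup G // IsPGroup p Q},
        Nat.card (Subgroup.normalizer (Q.1 : Set G)) * numWtBlock p red Q.1 B := by
  let P : Type := {Q : Subgroup G // IsPGroup p Q}
  have hP : Finite P := inferInstanceAs (Finite {Q : Subgroup G // IsPGroup p Q})
  have : Fintype P := Fintype.ofFinite P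
  let _act : MulAction G P :=
    { smul := fun g Q => ⟨Q.1.map (MulAut.conj g).toMonoidHom, Q.2.map _⟩
      one_smul := fun Q => by
        apply Subtype.ext
        change Q.1.map (MulAut.conj (1 : G)).toMonoidHom = Q.1
        ext x
        simp [Subgroup.mem_map]
      mul_smul := fun g h Q => by
        apply Subtype.ext
        change Q.1.map (MulAut.conj (g * h)).toMonoidHom =
          (Q.1.map (MulAut.conj h).toMonoidHom).map (MulAut.conj g).toMonoidHom
        rw [Subgroup.map_map]
        congr 1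
        ext x
        simp [mul_assoc] }
  have hsm : ∀ (g : G) (Q : P), (g • Q).1 = Q.1.map (MulAut.conj g).toMonoidHom := fun _ _ => rfl
  have hstab : ∀ Q : P, Nat.card (MulAction.stabilizer G Q) =
      Nat.card (Subgroup.normalizer (Q.1 : Set G)) := by
    intro Q
    refine Nat.card_congr (Equiv.subtypeEquivRight fun g => ?_)
    rw [MulAction.mem_stabilizer_iff, Subtype.ext_iff, hsm, Subgroup.mem_normalizer_iff]
    constructor
    · intro h3 x
      constructor
      · intro hx
        have : g * x * g⁻¹ ∈ Q.1.map (MulAut.conj g).toMonoidHom := ⟨x, hx, rfl⟩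
        rw [h3] at this
        exact this
      · intro hx
        have hx' : g * x * g⁻¹ ∈ Q.1 := hx
        rw [← h3] at hx'
        obtain ⟨y, hy, hyx⟩ := hx'
        have : g * y * g⁻¹ = g * x * g⁻¹ := hyx
        have : y = x := by simpa using this
        rwa [← this]
    · intro h3
      ext x
      constructor
      · rintro ⟨y, hy, rfl⟩
        exact (h3 y).mp hy
      · intro hx
        refine ⟨g⁻¹ * x * g, (h3 _).mpr ?_, ?_⟩
        · have : g * (g⁻¹ * x * g) * g⁻¹ = x := by group
          rw [this]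
          exact hx
        · change g * (g⁻¹ * x * g) * g⁻¹ = x
          group
  let s : P → ℕ := fun Q => numWtBlock p red Q.1 B
  have h6 := orbit_sum (G := G) (Ω := P) (pSubgroupSetoid p G) (by
    intro Q R
    change (∃ g : G, R.1 = Q.1.map (MulAut.conj g).toMonoidHom) ↔ _
    constructor
    · rintro ⟨g, hg⟩
      exact ⟨g, Subtype.ext (by rw [hsm, hg])⟩
    · rintro ⟨g, hg⟩
      exact ⟨g, by rw [← hg, hsm]⟩) s (by
      rintro Q R ⟨a, ha⟩
      change numWtBlock p red Q.1 B = numWtBlock p red R.1 B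
      rw [ha, nwb_conj])
  change Nat.card G * ∑ᶠ q : Quotient (pSubgroupSetoid p G), s q.out = _
  rw [h6, finsum_eq_sum_of_fintype]
  refine Finset.sum_congr rfl fun Q _ => ?_
  rw [hstab Q]

/-- package DIC -/
theorem dic : S_DIC := by
  intro p _ F _ _ red O hO G _ _ B χ₀ h0 hB
  have hw : ∀ Q : Subgroup G, numWtBlock p red Q B = wq p O (Pool.Agent.P8H58.AW.bs O χ₀) Q := by
    intro Q
    unfold numWtBlock wq
    refine Nat.card_congr (Equiv.subtypeEquivRight fun χ => ?_)
    rw [Pool.Agent.P8H58.AW.mem_iff red hO h0 hB]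
    constructor
    · rintro ⟨h1, h2⟩
      exact ⟨h1, h1.irr, h2⟩
    · rintro ⟨h1, -, h2⟩
      exact ⟨h1, h2⟩
  have h1 := wts_sum (p := p) red B
  have h2 : ((Nat.card G * numWts p red B : ℕ) : ℚ) = wtot p O (Pool.Agent.P8H58.AW.bs O χ₀) := by
    rw [h1]
    have i1 : Fintype {Q : Subgroup G // IsPGroup p Q} := Fintype.ofFinite _
    have i2 : Fintype (Subgroup G) := Fintype.ofFinite _
    unfold wtot
    rw [finsum_eq_sum_of_fintype, finsum_eq_sum_of_fintype, ← Finset.sum_filter]
    push_cast
    rw [@Finset.sum_subtype _ _ _ (fun Q : Subgroup G => IsPGroup p Q) i1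
      (Finset.univ.filter fun Q : Subgroup G => IsPGroup p Q)
      (by simp)
      (fun Q : Subgroup G => (Nat.card (Subgroup.normalizer (Q : Set G)) : ℚ) *
        wq p O (Pool.Agent.P8H58.AW.bs O χ₀) Q)]
    refine Finset.sum_congr (by ext; simp) fun Q _ => ?_
    rw [hw]
  push_cast at h2
  exact h2

/-- package ISO -/
theorem iso : S_ISO := by
  intro p _ F _ _ _ red G G' _ _ _ _ e B hBl
  have hcl : ∀ f : G → F, IsClassFun f → IsClassFun (fun y : G' => f (e.symm y)) := by
    intro f hf g x
    show f (e.symm (g * x * g⁻¹)) = f (e.symm x)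
    rw [map_mul, map_mul, map_inv]
    exact hf _ _
  have hcl' : ∀ f : G' → F, IsClassFun f → IsClassFun (fun y : G => f (e y)) := by
    intro f hf g x
    show f (e (g * x * g⁻¹)) = f (e x)
    rw [map_mul, map_mul, map_inv]
    exact hf _ _
  refine ⟨⟨?_, ?_, ?_, ?_⟩, ?_, ?_⟩
  · intro f g hf hg
    exact hBl.add _ _ (hcl' f hf) (hcl' g hg)
  · intro a f hf
    exact hBl.smul a _ (hcl' f hf)
  · have h1 : (fun x : G => (Pi.single 1 1 : G' → F) (e x)) = Pi.single 1 1 := by
      funext x
      by_cases hx : x = 1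
      · rw [hx, map_one, Pi.single_eq_same, Pi.single_eq_same]
      · rw [Pi.single_eq_of_ne hx, Pi.single_eq_of_ne (fun h => hx (by
          rw [← map_one e] at h
          exact e.injective h))]
    show B (fun x : G => (Pi.single 1 1 : G' → F) (e x)) = 1
    rw [h1]
    exact hBl.one
  · intro f g hf hg
    show B (fun x : G => conv f g (e x)) = B (fun x => f (e x)) * B (fun x => g (e x))
    rw [← hBl.mul _ _ (hcl' f hf) (hcl' g hg)]
    congr 1
    funext x
    unfold conv
    rw [← finsum_comp_equiv e.toEquiv]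
    refine finsum_congr fun y => ?_
    show f (e y) * g ((e y)⁻¹ * e x) = f (e y) * g (e (y⁻¹ * x))
    rw [map_mul, map_inv]
  · unfold numIrrBlock
    refine Nat.card_congr
      { toFun := fun φ => ⟨fun x => φ.1 (e x), Pool.Agent.Y210.NV2.irrTrace_comp e φ.2.1, ?_⟩
        invFun := fun φ => ⟨fun x => φ.1 (e.symm x), Pool.Agent.Y210.NV2.irrTrace_comp e.symm φ.2.1, ?_⟩
        left_inv := ?_
        right_inv := ?_ }
    · intro f hf x
      have h1 : ∑ᶠ g : G', f (e.symm g) * φ.1 (g * e x) = B (fun x => f (e.symm (e x))) * φ.1 (e x) :=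
        φ.2.2 _ (hcl f hf) (e x)
      have h2 : (fun x : G => f (e.symm (e x))) = f := by
        funext x
        rw [e.symm_apply_apply]
      rw [h2] at h1
      show _ = B f * φ.1 (e x)
      rw [← h1, ← finsum_comp_equiv e.toEquiv]
      refine finsum_congr fun g => ?_
      show f g * φ.1 (e (g * x)) = f (e.symm (e g)) * φ.1 (e g * e x)
      rw [map_mul, e.symm_apply_apply]
    · intro f hf x
      have h1 := φ.2.2 _ (hcl' f hf) (e.symm x)
      rw [← h1, ← finsum_comp_equiv e.symm.toEquiv]
      refine finsum_congr fun g => ?_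
      show f g * φ.1 (e.symm (g * x)) = f (e (e.symm g)) * φ.1 (e.symm g * e.symm x)
      rw [map_mul, e.apply_symm_apply]
    · intro φ
      apply Subtype.ext
      funext x
      show φ.1 (e (e.symm x)) = φ.1 x
      rw [e.apply_symm_apply]
    · intro φ
      apply Subtype.ext
      funext x
      show φ.1 (e.symm (e x)) = φ.1 x
      rw [e.symm_apply_apply]
  · obtain ⟨B', hB'⟩ : ∃ B' : (G' → F) → F, B' = fun f : G' → F => B (fun x => f (e x)) := ⟨_, rfl⟩
    rw [← hB']
    have hc : Nat.card G' = Nat.card G := Nat.card_congr e.symm.toEquiv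
    have h1 := wts_sum (p := p) red B
    have h2 := wts_sum (p := p) red B'
    have hP : ∀ Q : Subgroup G', IsPGroup p Q ↔ IsPGroup p (cm e Q : Subgroup G) := by
      intro Q
      constructor
      · intro h
        exact h.comap_of_injective e.toMonoidHom e.injective
      · intro h
        have h3 := IsPGroup.comap_of_injective h e.symm.toMonoidHom e.symm.injective
        have h4 : cm e.symm (cm e Q) = Q := cm_symm_cm e Q
        rw [← h4]
        exact h3
    have h3 : ∑ᶠ Q : {Q : Subgroup G' // IsPGroup p Q},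
        Nat.card (Subgroup.normalizer (Q.1 : Set G')) * numWtBlock p red Q.1 B' =
        ∑ᶠ Q : {Q : Subgroup G // IsPGroup p Q},
        Nat.card (Subgroup.normalizer (Q.1 : Set G)) * numWtBlock p red Q.1 B := by
      let E : {Q : Subgroup G' // IsPGroup p Q} ≃ {Q : Subgroup G // IsPGroup p Q} :=
        { toFun := fun Q => ⟨cm e Q.1, (hP Q.1).1 Q.2⟩
          invFun := fun Q => ⟨cm e.symm Q.1, (hP _).2 (by rw [cm_cm_symm]; exact Q.2)⟩
          left_inv := fun Q => Subtype.ext (cm_symm_cm e Q.1)
          right_inv := fun Q => Subtype.ext (cm_cm_symm e Q.1) }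
      rw [← finsum_comp_equiv E]
      refine finsum_congr fun Q => ?_
      show _ = Nat.card (Subgroup.normalizer ((cm e Q.1 : Subgroup G) : Set G)) *
        numWtBlock p red (cm e Q.1) B
      rw [nwb_cm red e Q.1 B B' (fun f _ => by rw [hB']), Nat.card_congr (nE e Q.1).toEquiv]
    rw [h3, ← h1, hc] at h2
    exact Nat.eq_of_mul_eq_mul_left Nat.card_pos h2

end Pool.Agent.P8H52.DL
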